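import Pool.Agent.U365.POW.E
import Pool.Agent.Results.MP_be1fae_nt.WindowsWithoutSolutions

/-!
# No solutions of the generalised Fermat equation near `s(n)`, `n - φ(n)` and `α n + β f(n)`

A solution `a x ^ p + b y ^ q = c z ^ r` with coefficients composed of primes of `S` is called reduced if no prime of `S` divides
`x y z` and `|x|`, `|y|`, `|z|` are `1` or no perfect powers; every solution becomes reduced if the primes of `S` in the bases are
moved to the coefficients and perfect powers to the exponents (which become larger). Let `s(n)` be the sum of the proper divisors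
of `n`. Let `G` have steps bounded below by a positive constant and at most polynomial growth, for example `G v = v ^ d` with an
integer `d ≥ 1`, and `0 ≤ θ < e < 1`. If `2 ∉ S` there is `R` (depending on `S`, `θ`, `e` and the order of `G`) with the following property: for a set of `n` of lower density at
least `1 - e` there is NO reduced solution with at least two exponents `≥ R` and `|max (|x|, |y|, |z|) - G (s(n))| ≤ s(n) ^ θ`, and
the same holds for `n - φ(n)` in place of `s(n)`. More precisely this holds for almost all `n` with a divisor `≥ n ^ e` which is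
a prime or the product of two different primes, and for the values `g = α n + β f(n)` of multiplicative functions with
`f p = p + c` at the primes, uniformly in `|α|, |β| ≤ N ^ δ` and with a power saving in the number of the exceptional `n`. For
`θ = 0` and small `e` the lower density is near `1`. If `e > d / 3 + θ` (`G` of order `d`), the same is true for every `S`
and `|x y z|` in place of `max (|x|, |y|, |z|)`.

Proof. The starting theorem `AllSolutionsByBases` bounds the number of the reduced solutions with bases up to `X` by `X ^ ε`. Let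
`n = k v p` with large primes `p ≠ v`. Then `g = A v p + B (v + p) + B c`, `A = α k + β f(k)`, `B = β c f(k)`, and so
`(A v + B) (A p + B) = A g + B² - A B c`: for given `g`, `k`, `α`, `β` there are only `N^o(1)` possibilities for `p` and `v` (tool
`Pool.Agent.U365.POW` of helper365).
-/

set_option autoImplicit false

open Finset

namespace Pool.Agent.Results.MP_be1fae_nt.AliquotValues

open AllSolutionsByBases (Solution TwoLarge ByBases ByProduct Bases)
open WindowsWithoutSolutions (Reduced Val card_val)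
open Pool.Agent.U365.POW (Values Dens values_set values_mono dens_mono)
open Pool.Agent.N733.TG (Expanding)

/-- There is no reduced `S`-solution `a x ^ p + b y ^ q = c z ^ r` with at least two exponents `≥ R` and
`|max (|x|, |y|, |z|) - G g| ≤ g ^ θ`. -/
def NearMax (S : Finset ℕ) (R : ℕ) (G : ℕ → ℝ) (θ : ℝ) (g : ℕ) : Prop :=
  ¬ ∃ (a b c x y z : ℤ) (p q r : ℕ), Reduced S R a b c x y z p q r ∧
    |((max (max x.natAbs y.natAbs) z.natAbs : ℕ) : ℝ) - G g| ≤ (g : ℝ) ^ θ

/-- There is no reduced `S`-solution `a x ^ p + b y ^ q = c z ^ r` with at least two exponents `≥ R` and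
`||x y z| - G g| ≤ g ^ θ`. -/
def NearProduct (S : Finset ℕ) (R : ℕ) (G : ℕ → ℝ) (θ : ℝ) (g : ℕ) : Prop :=
  ¬ ∃ (a b c x y z : ℤ) (p q r : ℕ), Reduced S R a b c x y z p q r ∧ |(((x * y * z).natAbs : ℕ) : ℝ) - G g| ≤ (g : ℝ) ^ θ

/-- from the positive elements up to `X` to the real form -/
lemma count_of {V : Set ℕ} {C s : ℝ} (hs : 0 ≤ s)
    (h : ∀ X : ℕ, 1 ≤ X → ({t : ℕ | 0 < t ∧ t ≤ X ∧ t ∈ V}.ncard : ℝ) ≤ C * (X : ℝ) ^ s) :
    ∀ ε : ℝ, 0 < ε → ∃ C' : ℝ, ∀ X : ℝ, 1 ≤ X →
      {t : ℕ | t ∈ V ∧ (t : ℝ) ≤ X}.Finite ∧ ({t : ℕ | t ∈ V ∧ (t : ℝ) ≤ X}.ncard : ℝ) ≤ C' * X ^ (s + ε) := by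
  intro ε hε
  refine ⟨|C| + 1, fun X hX => ?_⟩
  have hX0 : 0 < X := by linarith
  have hX1 : 1 ≤ ⌊X⌋₊ := Nat.le_floor (by exact_mod_cast hX)
  have hfin : {t : ℕ | t ∈ V ∧ (t : ℝ) ≤ X}.Finite := by
    apply (Set.finite_Icc 0 ⌊X⌋₊).subset
    rintro t ⟨-, ht⟩
    exact ⟨Nat.zero_le _, Nat.le_floor ht⟩
  refine ⟨hfin, ?_⟩
  have hf2 : {t : ℕ | 0 < t ∧ t ≤ ⌊X⌋₊ ∧ t ∈ V}.Finite := by
    apply (Set.finite_Icc 0 ⌊X⌋₊).subset
    rintro t ⟨-, ht, -⟩
    exact ⟨Nat.zero_le _, ht⟩
  have hsub : {t : ℕ | t ∈ V ∧ (t : ℝ) ≤ X} ⊆ insert 0 {t : ℕ | 0 < t ∧ t ≤ ⌊X⌋₊ ∧ t ∈ V} := by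
    rintro t ⟨h1, h2⟩
    rcases Nat.eq_zero_or_pos t with h0 | h0
    · exact Or.inl h0
    · exact Or.inr ⟨h0, Nat.le_floor h2, h1⟩
  have h1 : ({t : ℕ | t ∈ V ∧ (t : ℝ) ≤ X}.ncard : ℝ) ≤ ({t : ℕ | 0 < t ∧ t ≤ ⌊X⌋₊ ∧ t ∈ V}.ncard : ℝ) + 1 := by
    exact_mod_cast (Set.ncard_le_ncard hsub (hf2.insert 0)).trans (Set.ncard_insert_le _ _)
  have h2 : ((⌊X⌋₊ : ℕ) : ℝ) ^ s ≤ X ^ (s + ε) :=
    (Real.rpow_le_rpow (Nat.cast_nonneg _) (Nat.floor_le hX0.le) hs).trans
      (Real.rpow_le_rpow_of_exponent_le hX (by linarith))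
  have h3 : (1 : ℝ) ≤ X ^ (s + ε) := Real.one_le_rpow hX (by linarith)
  calc _ ≤ C * ((⌊X⌋₊ : ℕ) : ℝ) ^ s + 1 := h1.trans (by linarith [h ⌊X⌋₊ hX1])
    _ ≤ |C| * X ^ (s + ε) + X ^ (s + ε) := by
        refine add_le_add ((mul_le_mul_of_nonneg_right (le_abs_self C) (by positivity)).trans
          (mul_le_mul_of_nonneg_left h2 (abs_nonneg C))) h3
    _ = _ := by ring

/-- **Theorem.** Let `S` be a finite set, `d ≥ 1`, `θ ≥ 0` and `e < 1`. (1) If `2 ∉ S` and `θ < e` there is `R` such that for all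
`G` with steps `≥ a > 0` and growth `≤ C v ^ d` the property `NearMax` holds for the values of similar functions as the aliquot sum (`Values e`: for `s(n)`, for `n - φ(n)` and for all `α n + β f(n)`, for almost all the `n` with a divisor
`≥ n ^ e` which is a prime or the product of two different primes), and it holds for `s(n)` and `n - φ(n)` for a set of `n` of
lower density at least `1 - e`. (2) If `d / 3 + θ < e` the same is true for every `S` and the property `NearProduct`. -/
theorem result : ∀ (S : Finset ℕ) (d : ℝ), 1 ≤ d → ∀ θ e : ℝ, 0 ≤ θ → e < 1 →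
    (2 ∉ S → θ < e → ∃ R : ℕ, ∀ G : ℕ → ℝ, Expanding G d →
      Values e (NearMax S R G θ) ∧ Dens (1 - e) (NearMax S R G θ)) ∧
    (d / 3 + θ < e → ∃ R : ℕ, ∀ G : ℕ → ℝ, Expanding G d →
      Values e (NearProduct S R G θ) ∧ Dens (1 - e) (NearProduct S R G θ)) := by
  classical
  intro S d hd θ e hθ he1
  have hd0 : 0 < d := by linarith
  refine ⟨fun h2 he => ?_, fun he => ?_⟩
  · obtain ⟨s, hs⟩ : ∃ s : ℝ, s = (e - θ) / (2 * d) := ⟨_, rfl⟩
    have hs0 : 0 < s := by rw [hs]; apply div_pos <;> linarith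
    have hds : d * s = (e - θ) / 2 := by rw [hs]; field_simp
    obtain ⟨R, C, hC, h⟩ := AllSolutionsByBases.result.2.1 S s h2 hs0
    refine ⟨R, fun G hG => ?_⟩
    obtain ⟨k1, k2⟩ := values_set (Val S R (fun x y z => max (max x y) z)) (fun t : ℕ => (t : ℝ)) hG (s := s) hs0.le hθ
      (by rw [hds]; linarith) (count_of (C := C) hs0.le (fun X hX => by
        have hX1 : (1 : ℝ) ≤ X := by exact_mod_cast hX
        obtain ⟨h5, h6⟩ := h X hX1
        have h7 := card_val S R (fun x y z => max (max x y) z) X (ByBases S R X) h5 (by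
          intro a b c x y z p q r hred hle
          have hb : ∀ u : ℤ, u.natAbs ≤ X → |(u : ℝ)| ≤ X := by
            intro u hu
            have h8 : ((u.natAbs : ℕ) : ℝ) ≤ X := by exact_mod_cast hu
            rwa [Nat.cast_natAbs, Int.cast_abs] at h8
          have hle' : max (max x.natAbs y.natAbs) z.natAbs ≤ X := hle
          rw [max_le_iff, max_le_iff] at hle'
          exact ⟨a, b, c, x, y, z, p, q, r, hred.1, rfl, hred.2.1, hred.2.2.2.2.2.2,
            hb x hle'.1.1, hb y hle'.1.2, hb z hle'.2⟩)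
        have h8 : {t : ℕ | 0 < t ∧ t ≤ X ∧ t ∈ Val S R (fun x y z => max (max x y) z)} =
            (((Ioc 0 X).filter (fun t => t ∈ Val S R (fun x y z => max (max x y) z)) : Finset ℕ) : Set ℕ) := by
          ext t
          rw [coe_filter]
          simp only [Set.mem_ofPred_eq, mem_Ioc, and_assoc]
        rw [h8, Set.ncard_coe_finset]
        refine le_trans (Nat.cast_le.2 (le_trans (le_of_eq ?_) h7)) h6
        congr!))
    have hm : ∀ g : ℕ, (∀ t : ℕ, |(t : ℝ) - G g| ≤ (g : ℝ) ^ θ → t ∉ Val S R (fun x y z => max (max x y) z)) →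
        NearMax S R G θ g := by
      rintro g hg ⟨a, b, c, x, y, z, p, q, r, hred, hw⟩
      exact hg _ hw ⟨a, b, c, x, y, z, p, q, r, hred, rfl⟩
    refine ⟨?_, dens_mono k2 (by rw [hds]; linarith) hm⟩
    have h3 := k1 ((e - θ) / 2) (by linarith)
    have h4 : d * s + θ + (e - θ) / 2 = e := by rw [hds]; ring
    rw [h4] at h3
    exact values_mono h3 hm
  · obtain ⟨s', hs'⟩ : ∃ s' : ℝ, s' = (e - θ - d / 3) / (2 * d) := ⟨_, rfl⟩
    have hs'0 : 0 < s' := by rw [hs']; apply div_pos <;> linarith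
    have hds : d * (1 / 3 + s') = d / 3 + (e - θ - d / 3) / 2 := by rw [hs']; field_simp
    obtain ⟨R, C, hC, h⟩ := AllSolutionsByBases.result.2.2 S s' hs'0
    refine ⟨R, fun G hG => ?_⟩
    obtain ⟨k1, k2⟩ := values_set (Val S R (fun x y z => x * y * z)) (fun t : ℕ => (t : ℝ)) hG (s := 1 / 3 + s')
      (by linarith) hθ (by rw [hds]; linarith) (count_of (C := C) (by linarith) (fun X hX => by
        have hX1 : (1 : ℝ) ≤ X := by exact_mod_cast hX
        obtain ⟨h5, h6⟩ := h X hX1
        have h7 := card_val S R (fun x y z => x * y * z) X (ByProduct S R X) h5 (by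
          intro a b c x y z p q r hred hle
          refine ⟨a, b, c, x, y, z, p, q, r, hred.1, rfl, hred.2.1, hred.2.2.2.2.2.2, ?_⟩
          have h8 : ((x.natAbs * y.natAbs * z.natAbs : ℕ) : ℝ) ≤ X := by exact_mod_cast hle
          rw [← Int.natAbs_mul, ← Int.natAbs_mul, Nat.cast_natAbs, Int.cast_abs] at h8
          exact h8)
        have h8 : {t : ℕ | 0 < t ∧ t ≤ X ∧ t ∈ Val S R (fun x y z => x * y * z)} =
            (((Ioc 0 X).filter (fun t => t ∈ Val S R (fun x y z => x * y * z)) : Finset ℕ) : Set ℕ) := by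
          ext t
          rw [coe_filter]
          simp only [Set.mem_ofPred_eq, mem_Ioc, and_assoc]
        rw [h8, Set.ncard_coe_finset]
        refine le_trans (Nat.cast_le.2 (le_trans (le_of_eq ?_) h7)) h6
        congr!))
    have hm : ∀ g : ℕ, (∀ t : ℕ, |(t : ℝ) - G g| ≤ (g : ℝ) ^ θ → t ∉ Val S R (fun x y z => x * y * z)) →
        NearProduct S R G θ g := by
      rintro g hg ⟨a, b, c, x, y, z, p, q, r, hred, hw⟩
      refine hg _ hw ⟨a, b, c, x, y, z, p, q, r, hred, ?_⟩
      rw [Int.natAbs_mul, Int.natAbs_mul]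
    refine ⟨?_, dens_mono k2 (by rw [hds]; linarith) hm⟩
    have h3 := k1 ((e - θ - d / 3) / 2) (by linarith)
    have h4 : d * (1 / 3 + s') + θ + (e - θ - d / 3) / 2 = e := by rw [hds]; ring
    rw [h4] at h3
    exact values_mono h3 hm

end Pool.Agent.Results.MP_be1fae_nt.AliquotValues
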